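import Pool.Agent.Y142.ZO.Stm
import Pool.Agent.Y142.DensB

/-! Project Y142-ZO: tasks `S_DENS` and `S_INF`. -/

set_option autoImplicit false

namespace Pool.Agent.Y394.ZO

open NumberField Filter Topology Polynomial
open Pool.Agent.W401.Cheb

theorem exists_split (P : ℚ[X]) :
    ∃ (L : Type) (_ : Field L) (_ : CharZero L), IsSplittingField ℚ L P := by
  have h := Polynomial.IsSplittingField.splittingField P
  have hCZ : CharZero P.SplittingField := charZero_of_injective_algebraMap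
    (algebraMap ℚ P.SplittingField).injective
  refine ⟨P.SplittingField, inferInstance, hCZ, ?_⟩
  convert h
  exact Subsingleton.elim _ _

theorem exists_field {k : ℕ} (d : Fin k → ℤ) :
    ∃ (L : Type) (_ : Field L) (_ : NumberField L) (_ : IsGalois ℚ L) (e : Fin k → 𝓞 L),
      (∀ i, e i ^ 2 = (d i : 𝓞 L)) ∧ ∀ σ : Gal(L/ℚ), (∀ i, σ (e i : L) = e i) → σ = 1 := by
  classical
  let P : ℚ[X] := ∏ i, (X ^ 2 - C (d i : ℚ))
  have hP : P ≠ 0 := Finset.prod_ne_zero_iff.2 fun i _ => X_pow_sub_C_ne_zero (by norm_num) _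
  obtain ⟨L, _, hCZ, hsp⟩ := exists_split P
  have hF : FiniteDimensional ℚ L := IsSplittingField.finiteDimensional L P
  have hN : NumberField L := { to_charZero := hCZ, to_finiteDimensional := hF }
  have hG : IsGalois ℚ L := by
    have : Normal ℚ L := Normal.of_isSplittingField P
    exact { }
  have hS : (P.map (algebraMap ℚ L)).Splits := IsSplittingField.splits L P
  have hex : ∀ i, ∃ z : L, z ^ 2 = (d i : L) := by
    intro i
    have h1 : ((X ^ 2 - C (d i : ℚ) : ℚ[X]).map (algebraMap ℚ L)).Splits := by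
      refine hS.of_dvd (by rwa [Polynomial.map_ne_zero_iff (algebraMap ℚ _).injective]) ?_
      exact Polynomial.map_dvd _ (Finset.dvd_prod_of_mem _ (Finset.mem_univ i))
    obtain ⟨z, hz⟩ := h1.exists_eval_eq_zero (by
      rw [degree_map, degree_X_pow_sub_C (by norm_num)]; norm_num)
    refine ⟨z, ?_⟩
    simp only [Polynomial.map_sub, Polynomial.map_pow, map_X, map_C, eval_sub, eval_pow, eval_X,
      eval_C] at hz
    rw [sub_eq_zero.1 hz]
    simp
  choose z hz using hex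
  have hint : ∀ i, IsIntegral ℤ (z i) := fun i =>
    ⟨X ^ 2 - C (d i), monic_X_pow_sub_C _ (by norm_num), by
      rw [eval₂_sub, eval₂_pow, eval₂_X, eval₂_C, hz i]; simp⟩
  obtain ⟨e, he⟩ : ∃ e : Fin k → 𝓞 L, ∀ i, (e i : L) = z i := ⟨fun i => ⟨z i, hint i⟩, fun i => rfl⟩
  refine ⟨L, inferInstance, hN, hG, e, ?_, ?_⟩
  · intro i
    apply RingOfIntegers.coe_injective
    have h9 : (algebraMap (𝓞 L) L) (e i) = z i := he i
    rw [map_pow, h9, hz i]
    simp
  · intro σ hσ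
    have hadj := IsSplittingField.adjoin_rootSet L P
    have h0 : (σ : L →ₐ[ℚ] L) = AlgHom.id ℚ L := by
      refine AlgHom.ext_of_adjoin_eq_top hadj fun x hx => ?_
      rw [mem_rootSet] at hx
      have h1 := hx.2
      simp only [P, map_prod, map_sub, map_pow, aeval_X, aeval_C, Finset.prod_eq_zero_iff] at h1
      obtain ⟨i, _, hi⟩ := h1
      have h2 : x ^ 2 = z i ^ 2 := by
        rw [hz i]
        simpa [sub_eq_zero] using hi
      have h3 : σ (z i) = z i := by rw [← he]; exact hσ i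
      change σ x = x
      rcases sq_eq_sq_iff_eq_or_eq_neg.1 h2 with h | h
      · rw [h]
        exact h3
      · rw [h]
        rw [map_neg, h3]
    exact AlgEquiv.ext fun x => DFunLike.congr_fun h0 x

/-- the squares of the products -/
theorem prod_mul_prod {ι : Type*} [DecidableEq ι] (f : ι → ℚ) (I J : Finset ι) :
    (∏ i ∈ I, f i) * ∏ i ∈ J, f i = (∏ i ∈ (I ∪ J) \ (I ∩ J), f i) * (∏ i ∈ I ∩ J, f i) ^ 2 := by
  rw [← Finset.prod_union_inter, ← Finset.prod_sdiff (Finset.inter_subset_left.trans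
    Finset.subset_union_left : I ∩ J ⊆ I ∪ J)]
  ring

theorem card_gal {k : ℕ} (d : Fin k → ℤ)
    (hd : ∀ I : Finset (Fin k), I.Nonempty → ¬ IsSquare (∏ i ∈ I, (d i : ℚ)))
    (L : Type) [Field L] [NumberField L] [IsGalois ℚ L] (e : Fin k → L)
    (he : ∀ i, e i ^ 2 = (d i : L)) : 2 ^ k ≤ Nat.card Gal(L/ℚ) := by
  classical
  have hd0 : ∀ i, d i ≠ 0 := by
    intro i h
    apply hd {i} (Finset.singleton_nonempty i)
    rw [Finset.prod_singleton, h]
    exact ⟨0, by simp⟩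
  have he0 : ∀ i, e i ≠ 0 := by
    intro i h
    have := he i
    rw [h, zero_pow two_ne_zero] at this
    exact hd0 i (by exact_mod_cast this.symm)
  have hsig : ∀ (σ : Gal(L/ℚ)) i, σ (e i) = e i ∨ σ (e i) = - e i := by
    intro σ i
    apply sq_eq_sq_iff_eq_or_eq_neg.1
    rw [← map_pow, he i, map_intCast]
  -- the characters
  let χ : Fin k → (Gal(L/ℚ) →* L) := fun i =>
    { toFun := fun σ => σ (e i) / e i
      map_one' := by simp [he0 i]
      map_mul' := by
        intro σ τ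
        rcases hsig τ i with h | h
        · rw [AlgEquiv.mul_apply, h, div_self (he0 i), mul_one]
        · rw [AlgEquiv.mul_apply, h, map_neg, neg_div, neg_div, div_self (he0 i)]
          ring }
  have hχ : ∀ (I : Finset (Fin k)) (σ : Gal(L/ℚ)), (∏ i ∈ I, χ i) σ =
      σ (∏ i ∈ I, e i) / ∏ i ∈ I, e i := by
    intro I σ
    rw [MonoidHom.finsetProd_apply, map_prod, ← Finset.prod_div_distrib]
    rfl
  have hinj : Function.Injective fun I : Finset (Fin k) => ∏ i ∈ I, χ i := by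
    intro I J hIJ
    by_contra hne
    have hprod0 : ∀ I : Finset (Fin k), ∏ i ∈ I, e i ≠ 0 := fun I =>
      Finset.prod_ne_zero_iff.2 fun i _ => he0 i
    have hfix : ∀ σ : Gal(L/ℚ), σ ((∏ i ∈ I, e i) * ∏ i ∈ J, e i) =
        (∏ i ∈ I, e i) * ∏ i ∈ J, e i := by
      intro σ
      have h1 : (∏ i ∈ I, χ i) σ = (∏ i ∈ J, χ i) σ := by
        have := hIJ
        simp only at this
        rw [this]
      rw [hχ, hχ, div_eq_div_iff (hprod0 I) (hprod0 J)] at h1
      have h2 : σ (∏ i ∈ J, e i) ^ 2 = (∏ i ∈ J, e i) ^ 2 := by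
        rw [← map_pow, ← Finset.prod_pow, Finset.prod_congr rfl fun i _ => he i, map_prod]
        simp
      rw [map_mul]
      have h3 : σ (∏ i ∈ I, e i) * (∏ i ∈ J, e i) * σ (∏ i ∈ J, e i) =
          (∏ i ∈ I, e i) * (∏ i ∈ J, e i) * (∏ i ∈ J, e i) := by
        rw [h1]
        linear_combination (∏ i ∈ I, e i) * h2
      have h4 : (∏ i ∈ J, e i) * (σ (∏ i ∈ I, e i) * σ (∏ i ∈ J, e i) -
        (∏ i ∈ I, e i) * ∏ i ∈ J, e i) = 0 := by linear_combination h3
      rcases mul_eq_zero.1 h4 with h | h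
      · exact absurd h (hprod0 J)
      · exact sub_eq_zero.1 h
    obtain ⟨q, hq⟩ := (IsGalois.mem_range_algebraMap_iff_fixed _).2 hfix
    have h5 : (∏ i ∈ I, (d i : ℚ)) * ∏ i ∈ J, (d i : ℚ) = q ^ 2 := by
      apply (algebraMap ℚ L).injective
      rw [map_mul, map_pow, hq, map_prod, map_prod, mul_pow, ← Finset.prod_pow, ← Finset.prod_pow]
      simp only [he, map_intCast]
    rw [prod_mul_prod] at h5
    have hK : (∏ i ∈ I ∩ J, (d i : ℚ)) ≠ 0 :=
      Finset.prod_ne_zero_iff.2 fun i _ => by exact_mod_cast hd0 i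
    refine hd ((I ∪ J) \ (I ∩ J)) ?_ ⟨q / ∏ i ∈ I ∩ J, (d i : ℚ), ?_⟩
    · rw [Finset.sdiff_nonempty]
      intro h
      apply hne
      apply le_antisymm
      · exact (Finset.subset_union_left.trans h).trans Finset.inter_subset_right
      · exact (Finset.subset_union_right.trans h).trans Finset.inter_subset_left
    · field_simp
      exact h5
  have hli := (linearIndependent_monoidHom Gal(L/ℚ) L).comp _ hinj
  have := hli.fintype_card_le_finrank
  rw [Module.finrank_fintype_fun_eq_card, Fintype.card_finset, Fintype.card_fin] at this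
  rwa [Nat.card_eq_fintype_card]

theorem xp_one_ne {k : ℕ} (d : Fin k → ℤ) (L : Type) [Field L] [NumberField L] [IsGalois ℚ L]
    (e : Fin k → 𝓞 L) (he : ∀ i, e i ^ 2 = (d i : 𝓞 L))
    (hgen : ∀ σ : Gal(L/ℚ), (∀ i, σ (e i : L) = e i) → σ = 1)
    {p : ℕ} [Fact p.Prime] (hp2 : p ≠ 2) (hT : TorAt L p) (hpd : ∀ i, (d i : ZMod p) ≠ 0)
    (hsq : ∀ i, IsSquare (d i : ZMod p)) : xp L 1 p ≠ 0 := by
  obtain ⟨φ⟩ := nonempty_hom hT
  obtain ⟨σ, hσ⟩ := exists_frob hT φ
  have h1 : σ = 1 := by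
    apply hgen
    intro i
    have heL : (e i : L) ^ 2 = (d i : L) := by
      have := congrArg (algebraMap (𝓞 L) L) (he i)
      rwa [map_pow, map_intCast] at this
    have hs : σ (e i : L) = e i ∨ σ (e i : L) = - e i := by
      apply sq_eq_sq_iff_eq_or_eq_neg.1
      rw [← map_pow, heL, map_intCast]
    rcases hs with h | h
    · exact h
    · exfalso
      have h2 : σ • e i = - e i := by
        apply RingOfIntegers.coe_injective
        rw [map_neg]
        exact h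
      have h3 := hσ (e i)
      rw [h2, map_neg] at h3
      obtain ⟨a, ha⟩ := hsq i
      have h4 : φ (e i) ^ 2 = (algebraMap (ZMod p) (AlgebraicClosure (ZMod p)) a) ^ 2 := by
        rw [← map_pow, he i, map_intCast, ← map_pow, sq, ← ha, map_intCast]
      have h5 : φ (e i) ^ p = φ (e i) := by
        rcases sq_eq_sq_iff_eq_or_eq_neg.1 h4 with h | h
        · rw [h, ← map_pow, ZMod.pow_card]
        · rw [h, ← map_neg, ← map_pow, ZMod.pow_card]
      rw [h5] at h3
      have hchar : CharP (AlgebraicClosure (ZMod p)) p :=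
        charP_of_injective_algebraMap (algebraMap (ZMod p) (AlgebraicClosure (ZMod p))).injective p
      have h20 : (2 : AlgebraicClosure (ZMod p)) ≠ 0 := by
        intro h20
        have h21 : ((2 : ℕ) : AlgebraicClosure (ZMod p)) = 0 := by exact_mod_cast h20
        rw [CharP.cast_eq_zero_iff _ p] at h21
        exact hp2 ((Nat.prime_dvd_prime_iff_eq Fact.out Nat.prime_two).1 h21)
      have h6 : φ (e i) = 0 := by
        have h7 : (2 : AlgebraicClosure (ZMod p)) * φ (e i) = 0 := by linear_combination -h3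
        exact (mul_eq_zero.1 h7).resolve_left h20
      rw [h6, zero_pow two_ne_zero] at h4
      have h8 : a = 0 := by
        have := pow_eq_zero_iff two_ne_zero |>.1 h4.symm
        rwa [map_eq_zero] at this
      apply hpd i
      rw [ha, h8, mul_zero]
  subst h1
  have hfin := finite_hom hT
  unfold xp
  rw [dif_pos Fact.out]
  refine Nat.card_ne_zero.2 ⟨⟨⟨φ, hσ⟩⟩, ?_⟩
  exact Subtype.finite

theorem isSquare_zmod {p : ℕ} [Fact p.Prime] {r : ℚ} (h : IsSquare (r : ℚ_[p])) :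
    IsSquare ((r.num * r.den : ℤ) : ZMod p) := by
  obtain ⟨x, hx⟩ := h
  have h1 : ((r.num * r.den : ℤ) : ℚ_[p]) = (x * r.den) ^ 2 := by
    have h2 : (r : ℚ_[p]) * r.den = r.num := by
      exact_mod_cast congrArg (fun t : ℚ => (t : ℚ_[p])) (Rat.mul_den_eq_num r)
    push_cast
    rw [← h2, hx]
    ring
  have h3 : ‖x * (r.den : ℚ_[p])‖ ≤ 1 := by
    have h4 : ‖x * (r.den : ℚ_[p])‖ ^ 2 ≤ 1 := by
      rw [← norm_pow, ← h1]
      exact Padic.norm_int_le_one _
    exact (pow_le_one_iff_of_nonneg (norm_nonneg _) two_ne_zero).1 h4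
  obtain ⟨z, hz⟩ : ∃ z : ℤ_[p], (z : ℚ_[p]) = x * (r.den : ℚ_[p]) := ⟨⟨_, h3⟩, rfl⟩
  have h5 : ((r.num * r.den : ℤ) : ℤ_[p]) = z ^ 2 := by
    apply Subtype.ext
    rw [PadicInt.coe_intCast, h1, PadicInt.coe_pow, hz]
  refine ⟨PadicInt.toZMod z, ?_⟩
  rw [← sq, ← map_pow, ← h5, map_intCast]

theorem dens_le {k : ℕ} (r : Fin k → ℚ)
    (hr : ∀ I : Finset (Fin k), I.Nonempty → ¬ IsSquare (∏ i ∈ I, r i)) (Bad : Set ℕ)
    (hB : ∀ ℓ ∈ Bad, ℓ.Prime) (M : ℕ)
    (h : ∀ i, ∀ ℓ ∈ Bad, M < ℓ → ∀ _ : Fact ℓ.Prime, IsSquare ((r i : ℚ) : ℚ_[ℓ]))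
    {ε : ℝ} (hε : 0 < ε) : ∀ᶠ n : ℕ in atTop,
      (Nat.card {ℓ : ℕ // ℓ ≤ n ∧ ℓ ∈ Bad} : ℝ) / (Nat.primeCounting n : ℝ) ≤ 1 / 2 ^ k + ε := by
  classical
  let d : Fin k → ℤ := fun i => (r i).num * (r i).den
  have hdr : ∀ i, (d i : ℚ) = r i * ((r i).den : ℚ) ^ 2 := by
    intro i
    have h2 := Rat.mul_den_eq_num (r i)
    simp only [d]
    push_cast
    rw [← h2]
    ring
  have hden : ∀ i, ((r i).den : ℚ) ≠ 0 := fun i => by exact_mod_cast (r i).den_ne_zero
  have hd : ∀ I : Finset (Fin k), I.Nonempty → ¬ IsSquare (∏ i ∈ I, (d i : ℚ)) := by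
    rintro I hI ⟨x, hx⟩
    apply hr I hI
    have hc0 : (∏ i ∈ I, ((r i).den : ℚ)) ≠ 0 := Finset.prod_ne_zero_iff.2 fun i _ => hden i
    refine ⟨x / ∏ i ∈ I, ((r i).den : ℚ), ?_⟩
    simp only [hdr, Finset.prod_mul_distrib, Finset.prod_pow] at hx
    field_simp
    linear_combination hx
  have hd0 : ∀ i, d i ≠ 0 := by
    intro i h
    apply hd {i} (Finset.singleton_nonempty i)
    rw [Finset.prod_singleton, h]
    exact ⟨0, by simp⟩
  obtain ⟨L, _, _, _, e, he, hgen⟩ := exists_field d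
  have hcard := card_gal d hd L (fun i => (e i : L)) (fun i => by
    have := congrArg (algebraMap (𝓞 L) L) (he i)
    rwa [map_pow, map_intCast] at this)
  obtain ⟨D', hD', htor⟩ := torsor L
  have htend := Pool.Agent.Y142.dens_class L ({1} : Set Gal(L/ℚ)) (by
    rintro σ hσ τ
    rw [Set.mem_singleton_iff] at hσ ⊢
    rw [hσ]
    group) (D := 1) one_pos
  let M' : ℕ := M + D' + 2 + ∑ i, (d i).natAbs
  have hsub : ∀ n : ℕ, Nat.card {ℓ : ℕ // ℓ ≤ n ∧ ℓ ∈ Bad} ≤ (M' + 1) +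
      Nat.card {p : ℕ // p ≤ n ∧ p.Prime ∧ ¬ p ∣ 1 ∧ ∃ σ ∈ ({1} : Set Gal(L/ℚ)), xp L σ p ≠ 0} := by
    intro n
    have hA : Nat.card {ℓ : ℕ // ℓ ≤ n ∧ ℓ ∈ Bad} =
        ((Finset.range (n + 1)).filter fun ℓ => ℓ ∈ Bad).card := by
      refine Nat.subtype_card _ fun ℓ => ?_
      rw [Finset.mem_filter, Finset.mem_range, Nat.lt_succ_iff]
    have hB' : Nat.card {p : ℕ // p ≤ n ∧ p.Prime ∧ ¬ p ∣ 1 ∧
        ∃ σ ∈ ({1} : Set Gal(L/ℚ)), xp L σ p ≠ 0} =
        ((Finset.range (n + 1)).filter fun p => p.Prime ∧ ¬ p ∣ 1 ∧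
        ∃ σ ∈ ({1} : Set Gal(L/ℚ)), xp L σ p ≠ 0).card := by
      refine Nat.subtype_card _ fun ℓ => ?_
      rw [Finset.mem_filter, Finset.mem_range, Nat.lt_succ_iff]
    rw [hA, hB', ← Finset.card_range (M' + 1)]
    refine (Finset.card_le_card ?_).trans (Finset.card_union_le _ _)
    intro ℓ hℓ
    rw [Finset.mem_filter, Finset.mem_range] at hℓ
    rw [Finset.mem_union, Finset.mem_filter, Finset.mem_range, Finset.mem_range]
    by_cases hlt : ℓ < M' + 1
    · exact Or.inl hlt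
    · right
      have hp := hB ℓ hℓ.2
      have hfact : Fact ℓ.Prime := ⟨hp⟩
      have hsum : ∀ i, (d i).natAbs ≤ ∑ i, (d i).natAbs := fun i =>
        Finset.single_le_sum (f := fun i => (d i).natAbs) (fun _ _ => Nat.zero_le _)
          (Finset.mem_univ i)
      refine ⟨hℓ.1, hp, hp.one_lt.ne' ∘ Nat.dvd_one.1, 1, rfl, ?_⟩
      refine xp_one_ne d L e he hgen (by omega) (htor ℓ fun hdvd => ?_) (fun i hi => ?_) fun i => ?_
      · have := Nat.le_of_dvd hD' hdvd
        omega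
      · rw [ZMod.intCast_zmod_eq_zero_iff_dvd] at hi
        have h1 : ℓ ≤ (d i).natAbs := Nat.le_of_dvd (Int.natAbs_pos.2 (hd0 i))
          (Int.natCast_dvd.1 hi)
        have := hsum i
        omega
      · exact isSquare_zmod (h i ℓ hℓ.2 (by omega) hfact)
  have hG : (1 : ℝ) / 2 ^ k ≥ (Nat.card ({1} : Set Gal(L/ℚ)) : ℝ) / (Nat.card Gal(L/ℚ) : ℝ) := by
    rw [Nat.card_unique, Nat.cast_one]
    refine one_div_le_one_div_of_le (by positivity) ?_
    exact_mod_cast hcard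
  have h1 : Tendsto (fun n : ℕ => ((M' + 1 : ℕ) : ℝ) / (Nat.primeCounting n : ℝ)) atTop (𝓝 0) :=
    tendsto_const_nhds.div_atTop tendsto_pc
  have h2 := h1.add htend
  rw [zero_add] at h2
  have h3 := h2.eventually_lt_const (u := (1 : ℝ) / 2 ^ k + ε) (by linarith)
  filter_upwards [h3] with n hn
  refine le_trans ?_ hn.le
  rw [← add_div]
  refine div_le_div_of_nonneg_right ?_ (Nat.cast_nonneg _)
  exact_mod_cast hsub n

theorem exists_seq (R : Set ℚ) (hR0 : (0 : ℚ) ∉ R)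
    (hR : ∀ M : ℕ, ∃ ℓ : ℕ, M < ℓ ∧ ℓ.Prime ∧ ∃ r ∈ R, Odd (padicValRat ℓ r)) :
    ∃ f : ℕ → ℚ, (∀ n, f n ∈ R) ∧ ∀ I : Finset ℕ, I.Nonempty → ¬ IsSquare (∏ i ∈ I, f i) := by
  classical
  obtain ⟨g, hg1, hg2⟩ := exists_seq_of_forall_finset_exists
    (fun x : ℕ × ℚ => x.1.Prime ∧ x.2 ∈ R ∧ Odd (padicValRat x.1 x.2))
    (fun x y : ℕ × ℚ => padicValRat y.1 x.2 = 0) (by
      intro s hs
      obtain ⟨ℓ, hℓ, hp, r, hr, hodd⟩ := hR (∑ x ∈ s, (x.2.num.natAbs + x.2.den))
      refine ⟨(ℓ, r), ⟨hp, hr, hodd⟩, fun x hx => ?_⟩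
      have hx0 : x.2 ≠ 0 := fun h => hR0 (h ▸ (hs x hx).2.1)
      have h1 : x.2.num.natAbs + x.2.den ≤ ∑ x ∈ s, (x.2.num.natAbs + x.2.den) :=
        Finset.single_le_sum (f := fun x : ℕ × ℚ => x.2.num.natAbs + x.2.den)
          (fun _ _ => Nat.zero_le _) hx
      have h2 : padicValNat ℓ x.2.num.natAbs = 0 := by
        apply padicValNat.eq_zero_of_not_dvd
        intro h
        have := Nat.le_of_dvd (Int.natAbs_pos.2 (Rat.num_ne_zero.2 hx0)) h
        omega
      have h3 : padicValNat ℓ x.2.den = 0 := by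
        apply padicValNat.eq_zero_of_not_dvd
        intro h
        have := Nat.le_of_dvd x.2.den_pos h
        omega
      change padicValRat ℓ x.2 = 0
      rw [padicValRat, padicValInt, h2, h3]
      simp)
  refine ⟨fun n => (g n).2, fun n => (hg1 n).2.1, ?_⟩
  rintro I hI ⟨x, hx⟩
  have hg0 : ∀ n, (g n).2 ≠ 0 := fun n h => hR0 (h ▸ (hg1 n).2.1)
  set m := I.max' hI with hm
  have hfact : Fact (g m).1.Prime := ⟨(hg1 m).1⟩
  have h1 : ∀ J : Finset ℕ, (∀ i ∈ J, i < m) → padicValRat (g m).1 (∏ i ∈ J, (g i).2) = 0 := by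
    intro J
    induction J using Finset.induction_on with
    | empty => intro _; simp
    | insert a J ha ih =>
      intro hJ
      rw [Finset.prod_insert ha, padicValRat.mul (hg0 a)
        (Finset.prod_ne_zero_iff.2 fun i _ => hg0 i), hg2 a m (hJ a (Finset.mem_insert_self _ _)),
        ih fun i hi => hJ i (Finset.mem_insert_of_mem hi), add_zero]
  have hmI : m ∈ I := Finset.max'_mem I hI
  have h2 := h1 (I.erase m) fun i hi =>
    lt_of_le_of_ne (Finset.le_max' I i (Finset.mem_of_mem_erase hi)) (Finset.ne_of_mem_erase hi)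
  have h3 : (g m).2 * ∏ i ∈ I.erase m, (g i).2 = ∏ i ∈ I, (g i).2 :=
    Finset.mul_prod_erase I (fun i => (g i).2) hmI
  have h4 : padicValRat (g m).1 (∏ i ∈ I, (g i).2) = padicValRat (g m).1 (g m).2 := by
    rw [← h3, padicValRat.mul (hg0 m) (Finset.prod_ne_zero_iff.2 fun i _ => hg0 i), h2, add_zero]
  have hP0 : (∏ i ∈ I, (g i).2) ≠ 0 := Finset.prod_ne_zero_iff.2 fun i _ => hg0 i
  have hx0 : x ≠ 0 := by
    rintro rfl
    exact hP0 (by rw [hx, mul_zero])
  have h5 : padicValRat (g m).1 (∏ i ∈ I, (g i).2) = padicValRat (g m).1 x + padicValRat (g m).1 x := by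
    rw [hx, padicValRat.mul hx0 hx0]
  have hodd := (hg1 m).2.2
  rw [← h4, h5] at hodd
  exact (Int.not_odd_iff_even.2 ⟨_, rfl⟩) hodd

theorem t1 : Pool.Agent.Y142.ZO.S_DENS := by
  classical
  intro R Bad hR0 hBad hR hsq
  obtain ⟨f, hf, hI⟩ := exists_seq R hR0 hR
  choose! Mf hMf using hsq
  rw [Metric.tendsto_atTop]
  intro ε hε
  obtain ⟨k, hk⟩ := exists_pow_lt_of_lt_one (half_pos hε) (by norm_num : (1 / 2 : ℝ) < 1)
  have h1 := dens_le (k := k) (fun i => f i) (by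
    intro I hIne h
    have h2 := hI (I.map Fin.valEmbedding) (by simpa using hIne)
    rw [Finset.prod_map] at h2
    exact h2 h) Bad hBad (∑ i : Fin k, Mf (f i)) (by
    intro i ℓ hℓ hM hfact
    refine hMf (f i) (hf i) ℓ hℓ (lt_of_le_of_lt ?_ hM) hfact
    exact Finset.single_le_sum (f := fun i : Fin k => Mf (f i)) (fun _ _ => Nat.zero_le _)
      (Finset.mem_univ i)) (half_pos hε)
  obtain ⟨N, hN⟩ := eventually_atTop.1 h1
  refine ⟨N, fun n hn => ?_⟩
  rw [Real.dist_eq, sub_zero, abs_of_nonneg (by positivity)]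
  have h2 := hN n hn
  rw [one_div_pow] at hk
  linarith

theorem t2 : Pool.Agent.Y142.ZO.S_INF := by
  classical
  intro r hr M
  by_contra hcon
  push Not at hcon
  have h1 := dens_le (k := 1) (fun _ => r) (by
    intro I hIne h
    apply hr
    have h2 : I = {0} := by
      obtain ⟨i, hi⟩ := hIne
      ext j
      rw [Finset.mem_singleton]
      have hj : j = 0 := Subsingleton.elim _ _
      have hij : i = j := Subsingleton.elim _ _
      exact ⟨fun _ => hj, fun _ => hij ▸ hi⟩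
    rwa [h2, Finset.prod_singleton] at h) {ℓ | ℓ.Prime ∧ M < ℓ} (fun ℓ hℓ => hℓ.1) M (by
    intro i ℓ hℓ hM hfact
    exact hcon ℓ hM hfact) (show (0 : ℝ) < 1 / 4 by norm_num)
  have h2 := tendsto_pc.eventually_gt_atTop (4 * (M + 1) : ℝ)
  obtain ⟨n, hn1, hn2⟩ := (h1.and h2).exists
  have hpos : (0 : ℝ) < Nat.primeCounting n := lt_trans (by positivity) hn2
  rw [div_le_iff₀ hpos] at hn1
  have hA : Nat.card {ℓ : ℕ // ℓ ≤ n ∧ ℓ ∈ {ℓ | ℓ.Prime ∧ M < ℓ}} =
      ((Finset.range (n + 1)).filter fun ℓ => ℓ.Prime ∧ M < ℓ).card := by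
    refine Nat.subtype_card _ fun ℓ => ?_
    rw [Finset.mem_filter, Finset.mem_range, Nat.lt_succ_iff]
    rfl
  have hcount : Nat.primeCounting n ≤ (M + 1) +
      ((Finset.range (n + 1)).filter fun ℓ => ℓ.Prime ∧ M < ℓ).card := by
    rw [Nat.primeCounting, Nat.primeCounting', Nat.count_eq_card_filter_range]
    conv_rhs => rw [← Finset.card_range (M + 1)]
    refine (Finset.card_le_card ?_).trans (Finset.card_union_le _ _)
    intro ℓ hℓ
    rw [Finset.mem_filter, Finset.mem_range] at hℓ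
    rw [Finset.mem_union, Finset.mem_filter, Finset.mem_range, Finset.mem_range]
    by_cases hlt : ℓ < M + 1
    · exact Or.inl hlt
    · exact Or.inr ⟨hℓ.1, hℓ.2, by omega⟩
  rw [hA] at hn1
  have hcount' : (Nat.primeCounting n : ℝ) ≤ (M + 1) +
      (((Finset.range (n + 1)).filter fun ℓ => ℓ.Prime ∧ M < ℓ).card : ℝ) := by
    exact_mod_cast hcount
  norm_num at hn1
  linarith

end Pool.Agent.Y394.ZO
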